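import Pool.Agent.Helper85.LN2.Defs

/-! Basic lemmas of project LN2. -/

namespace Pool.Agent.Helper85.LN2

open Pool.Agent.Helper85.LN

variable {Q X Z : Type*}

section EqvS

variable {R L : List (List (S Q))}

theorem EqvS.refl (u : List (S Q)) : EqvS R L u u := Relation.EqvGen.refl u

theorem EqvS.symm {u v : List (S Q)} (h : EqvS R L u v) : EqvS R L v u :=
  Relation.EqvGen.symm _ _ h

theorem EqvS.trans {u v w : List (S Q)} (h : EqvS R L u v) (h' : EqvS R L v w) : EqvS R L u w :=
  Relation.EqvGen.trans _ _ _ h h'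

theorem EqvS.step {u v : List (S Q)} (h : StpS R L u v) : EqvS R L u v :=
  Relation.EqvGen.rel _ _ h

theorem EqvS.append_left (p : List (S Q)) {u v : List (S Q)} (h : EqvS R L u v) :
    EqvS R L (p ++ u) (p ++ v) := by
  induction h with
  | rel x y h =>
    obtain ⟨p', r, s, hr, rfl, rfl⟩ := h
    exact EqvS.step ⟨p ++ p', r, s, hr, by simp, by simp⟩
  | refl x => exact EqvS.refl _
  | symm x y _ ih => exact ih.symm
  | trans x y z _ _ ih1 ih2 => exact ih1.trans ih2

theorem EqvS.append_right (p : List (S Q)) {u v : List (S Q)} (h : EqvS R L u v) :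
    EqvS R L (u ++ p) (v ++ p) := by
  induction h with
  | rel x y h =>
    obtain ⟨p', r, s, hr, rfl, rfl⟩ := h
    exact EqvS.step ⟨p', r, s ++ p, hr, by simp, by simp⟩
  | refl x => exact EqvS.refl _
  | symm x y _ ih => exact ih.symm
  | trans x y z _ _ ih1 ih2 => exact ih1.trans ih2

theorem EqvS.rel {r : List (S Q)} (h : r ∈ R) : EqvS R L r [] :=
  (EqvS.step ⟨[], r, [], Or.inl h, rfl, by simp⟩ : EqvS R L [] r).symm

theorem EqvS.triv (q : Q) (b : Bool) : EqvS R L [(q, b), (q, !b)] [] :=
  (EqvS.step ⟨[], _, [], Or.inr (Or.inl ⟨q, b, rfl⟩), rfl, by simp⟩ :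
    EqvS R L [] [(q, b), (q, !b)]).symm

theorem EqvS.kap {s s' : List (S Q)} (hs : s ∈ L) (hs' : s' ∈ L) (h : List (S Q)) :
    EqvS R L (LN2.kap s h s') [] :=
  (EqvS.step ⟨[], _, [], Or.inr (Or.inr ⟨s, hs, s', hs', h, rfl⟩), rfl, by simp⟩ :
    EqvS R L [] (LN2.kap s h s')).symm

theorem EqvS.cong (R L : List (List (S Q))) : Cong (EqvS R L) where
  refl := EqvS.refl
  symm _ _ h := h.symm
  trans _ _ _ h h' := h.trans h'
  left p _ _ h := h.append_left p
  right p _ _ h := h.append_right p
  triv := EqvS.triv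

theorem Eqv.cong (R : List (List (S Q))) : Cong (Eqv R) where
  refl := Eqv.refl
  symm _ _ h := h.symm
  trans _ _ _ h h' := h.trans h'
  left p _ _ h := h.append_left p
  right p _ _ h := h.append_right p
  triv := Eqv.triv

/-- Equality modulo `R` implies equality modulo `R` and the commutation relators. -/
theorem Eqv.toS {u v : List (S Q)} (h : Eqv R u v) : EqvS R L u v := by
  induction h with
  | rel x y h =>
    obtain ⟨p, r, s, hr, rfl, rfl⟩ := h
    rcases hr with hr | hr
    · exact EqvS.step ⟨p, r, s, Or.inl hr, rfl, rfl⟩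
    · exact EqvS.step ⟨p, r, s, Or.inr (Or.inl hr), rfl, rfl⟩
  | refl x => exact EqvS.refl _
  | symm x y _ ih => exact ih.symm
  | trans x y z _ _ ih1 ih2 => exact ih1.trans ih2

end EqvS

namespace Cong

variable {E : List (S Q) → List (S Q) → Prop} (hE : Cong E)

include hE

theorem append {u v u' v' : List (S Q)} (h : E u v) (h' : E u' v') : E (u ++ u') (v ++ v') :=
  hE.trans _ _ _ (hE.right u' _ _ h) (hE.left v _ _ h')

theorem mul_iw (w : List (S Q)) : E (w ++ iw w) [] := by
  induction w with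
  | nil => exact hE.refl _
  | cons s w ih =>
    rw [iw_cons]
    have h1 : E ([s] ++ ((w ++ LN.iw w) ++ [(s.1, !s.2)])) ([s] ++ ([] ++ [(s.1, !s.2)])) :=
      hE.left _ _ _ (hE.right _ _ _ ih)
    have h2 : E ([s] ++ ([] ++ [(s.1, !s.2)])) [] := hE.triv s.1 s.2
    have h3 := hE.trans _ _ _ h1 h2
    simpa using h3

theorem iw_mul (w : List (S Q)) : E (LN.iw w ++ w) [] := by
  have := hE.mul_iw (LN.iw w)
  rwa [iw_iw] at this

theorem iw {u v : List (S Q)} (h : E u v) : E (LN.iw u) (LN.iw v) := by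
  have h1 : E (LN.iw u ++ []) (LN.iw u ++ (v ++ LN.iw v)) :=
    hE.left _ _ _ (hE.symm _ _ (hE.mul_iw v))
  have h2 : E (LN.iw u ++ (v ++ LN.iw v)) (LN.iw u ++ (u ++ LN.iw v)) :=
    hE.left _ _ _ (hE.right _ _ _ (hE.symm _ _ h))
  have h3 : E ((LN.iw u ++ u) ++ LN.iw v) ([] ++ LN.iw v) := hE.right _ _ _ (hE.iw_mul u)
  rw [List.append_assoc] at h3
  have := hE.trans _ _ _ (hE.trans _ _ _ h1 h2) h3
  simpa using this

/-- Left cancellation. -/
theorem cancel {p u v : List (S Q)} (h : E (p ++ u) (p ++ v)) : E u v := by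
  have h1 := hE.left (LN.iw p) _ _ h
  rw [← List.append_assoc, ← List.append_assoc] at h1
  have h2 : ∀ x, E ((LN.iw p ++ p) ++ x) x := fun x => by
    simpa using hE.right x _ _ (hE.iw_mul p)
  exact hE.trans _ _ _ (hE.trans _ _ _ (hE.symm _ _ (h2 u)) h1) (h2 v)

/-- Words which are equal for a congruence respected by the automaton act in the same way. -/
theorem val {A : Auto Q X} (hR : RespE E A.toWA) {u v : List (S Q)} (h : E u v) :
    A.val u = A.val v := by
  ext1 w
  induction w generalizing u v with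
  | nil => rw [A.val_apply_nil, A.val_apply_nil]
  | cons a w ih =>
    rw [A.val_apply_cons, A.val_apply_cons, (hR u v h a).1, ih (hR u v h a).2]

end Cong

/-- Certificates are second certificates. -/
theorem cert_cert2 {A : Auto Q X} (h : Cert A) : Cert2 A := by
  obtain ⟨R, k, B, t, l, h1, h2, h3⟩ := h
  refine ⟨R, [], [], k, B, t, l, ⟨by simp, by simp, by simp⟩, ⟨fun r hr z => ?_, by simp⟩,
    ⟨fun r hr z => ?_, by simp⟩, fun q a => ?_⟩
  · exact ⟨(h1 r hr z).1, Eqv.toS (h1 r hr z).2⟩
  · exact ⟨(h2 r hr z).1, Eqv.toS (h2 r hr z).2⟩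
  · exact ⟨(h3 q a).1, Eqv.toS (h3 q a).2⟩

section Search

open Classical in
/-- the test of one candidate -/
noncomputable def tst {α β γ : Type*} (P : α → β → Prop) (V : α → γ → Prop) (x : α) (s : β ⊕ γ) :
    Option Bool :=
  Sum.casesOn s (fun c => if P x c then some true else none)
    (fun c => if V x c then some false else none)

theorem tst_primrec {α β γ : Type*} [Primcodable α] [Primcodable β] [Primcodable γ]
    {P : α → β → Prop} {V : α → γ → Prop}
    (hP : PrimrecPred fun p : α × β => P p.1 p.2) (hV : PrimrecPred fun p : α × γ => V p.1 p.2) :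
    Primrec₂ (tst P V) := by
  classical
  refine Primrec.sumCasesOn (f := fun p : α × (β ⊕ γ) => p.2)
    (g := fun p c => if P p.1 c then some true else none)
    (h := fun p c => if V p.1 c then some false else none) Primrec.snd ?_ ?_
  · refine Primrec.ite (c := fun q : (α × (β ⊕ γ)) × β => P q.1.1 q.2) ?_
      (Primrec.const _) (Primrec.const _)
    exact hP.comp (Primrec.pair (Primrec.fst.comp Primrec.fst) Primrec.snd)
  · refine Primrec.ite (c := fun q : (α × (β ⊕ γ)) × γ => V q.1.1 q.2) ?_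
      (Primrec.const _) (Primrec.const _)
    exact hV.comp (Primrec.pair (Primrec.fst.comp Primrec.fst) Primrec.snd)

theorem tst_some {α β γ : Type*} {P : α → β → Prop} {V : α → γ → Prop} {x : α} {s : β ⊕ γ} {b : Bool}
    (h : b ∈ tst P V x s) : (b = true ∧ ∃ c, P x c) ∨ (b = false ∧ ∃ c, V x c) := by
  classical
  cases s with
  | inl c =>
    have h' : b ∈ (if P x c then some true else none) := h
    by_cases hc : P x c
    · rw [if_pos hc] at h'
      exact Or.inl ⟨(Option.some.inj h').symm, c, hc⟩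
    · rw [if_neg hc] at h'
      exact absurd h' (by simp)
  | inr c =>
    have h' : b ∈ (if V x c then some false else none) := h
    by_cases hc : V x c
    · rw [if_pos hc] at h'
      exact Or.inr ⟨(Option.some.inj h').symm, c, hc⟩
    · rw [if_neg hc] at h'
      exact absurd h' (by simp)

/-- Search for a certificate of one of two types. -/
theorem search {α β γ : Type*} [Primcodable α] [Primcodable β] [Primcodable γ]
    (P : α → β → Prop) (V : α → γ → Prop)
    (hP : PrimrecPred fun p : α × β => P p.1 p.2) (hV : PrimrecPred fun p : α × γ => V p.1 p.2) :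
    ∃ f : α →. Bool, Partrec f ∧
      (∀ x b, b ∈ f x → (b = true ∧ ∃ c, P x c) ∨ (b = false ∧ ∃ c, V x c)) ∧
      ∀ x, ((∃ c, P x c) ∨ ∃ c, V x c) → (f x).Dom := by
  classical
  have ht : Primrec₂ (fun (x : α) (n : ℕ) =>
      (Encodable.decode (α := β ⊕ γ) n).bind (tst P V x)) :=
    Primrec.option_bind (f := fun p : α × ℕ => Encodable.decode (α := β ⊕ γ) p.2)
      (g := fun p s => tst P V p.1 s) (Primrec.decode.comp Primrec.snd)
      ((tst_primrec hP hV).comp (Primrec.fst.comp Primrec.fst) Primrec.snd)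
  refine ⟨fun x => Nat.rfindOpt fun n => (Encodable.decode (α := β ⊕ γ) n).bind (tst P V x),
    Partrec.rfindOpt ht.to_comp, ?_, ?_⟩
  · intro x b hb
    obtain ⟨n, hn⟩ := Nat.rfindOpt_spec hb
    obtain ⟨s, -, hs⟩ := Option.mem_bind_iff.1 hn
    exact tst_some hs
  · intro x hx
    rw [Nat.rfindOpt_dom]
    rcases hx with ⟨c, hc⟩ | ⟨c, hc⟩
    · refine ⟨Encodable.encode (Sum.inl c : β ⊕ γ), true, Option.mem_bind_iff.2
        ⟨Sum.inl c, Encodable.encodek _, ?_⟩⟩
      change true ∈ (if P x c then some true else none)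
      rw [if_pos hc]
      rfl
    · refine ⟨Encodable.encode (Sum.inr c : β ⊕ γ), false, Option.mem_bind_iff.2
        ⟨Sum.inr c, Encodable.encodek _, ?_⟩⟩
      change false ∈ (if V x c then some false else none)
      rw [if_pos hc]
      rfl

end Search

end Pool.Agent.Helper85.LN2
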