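import Pool.Agent.Helper85.LN.Basic
import Pool.Agent.Helper85.LN.Code
import Pool.Agent.Helper85.LN.Goals

/-!
# Second certificates for local nontriviality (MP_d0c558_al), definitions
-/

namespace Pool.Agent.Helper85.LN2

open Pool.Agent.Helper85.LN

/-! ### Abstract congruences -/

/-- `E` is the equality of a group generated by `Q`. -/
structure Cong {Q : Type*} (E : List (S Q) → List (S Q) → Prop) : Prop where
  refl : ∀ u, E u u
  symm : ∀ u v, E u v → E v u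
  trans : ∀ u v w, E u v → E v w → E u w
  left : ∀ p u v, E u v → E (p ++ u) (p ++ v)
  right : ∀ p u v, E u v → E (u ++ p) (v ++ p)
  triv : ∀ q b, E [(q, b), (q, !b)] []

/-- `W` respects `E`. -/
def RespE {Q Z : Type*} (E : List (S Q) → List (S Q) → Prop) (W : WA Q Z) : Prop :=
  ∀ u v, E u v → ∀ z, W.ltw u z = W.ltw v z ∧ E (W.scw u z) (W.scw v z)

/-- The condition on the points. -/
def PtE {Q X Z : Type*} (E : List (S Q) → List (S Q) → Prop) (A : Auto Q X) (B : WA Q Z)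
    (t : X → Z) (l : X → List (S Q)) : Prop :=
  ∀ (q : Q) (a : X), B.lt (A.tr q a, true) (t a) = t (A.out q a) ∧
    E (B.sc (A.tr q a, true) (t a) ++ l a) (l (A.out q a) ++ [(q, true)])

/-! ### Presentations with commuting conjugates -/

/-- The commutator of `s` and `h s' h⁻¹`. -/
def kap {Q : Type*} (s h s' : List (S Q)) : List (S Q) :=
  s ++ (h ++ (s' ++ (iw h ++ (iw s ++ (h ++ (iw s' ++ iw h))))))

/-- Elementary steps: insertion of a relator, of a trivial relator, or of a commutator of conjugates of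
elements of `L`. -/
def StpS {Q : Type*} (R L : List (List (S Q))) (u v : List (S Q)) : Prop :=
  ∃ p r t : List (S Q), (r ∈ R ∨ (∃ q b, r = [(q, b), (q, !b)]) ∨
    ∃ s ∈ L, ∃ s' ∈ L, ∃ h, r = kap s h s') ∧ u = p ++ t ∧ v = p ++ (r ++ t)

/-- Equality of words in the group with generators `Q`, relators `R` and the relators that all conjugates of
elements of `L` commute. -/
def EqvS {Q : Type*} (R L : List (List (S Q))) (u v : List (S Q)) : Prop :=
  Relation.EqvGen (StpS R L) u v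

/-- The relators `R` act trivially, the words in `L` act trivially on the letters and their sections are equal to
elements of `Y` modulo `R` and `L`. -/
def Resp2 {Q Z : Type*} (R L Y : List (List (S Q))) (W : WA Q Z) : Prop :=
  (∀ r ∈ R, ∀ z, W.ltw r z = z ∧ EqvS R L (W.scw r z) []) ∧
  ∀ s ∈ L, ∀ z, W.ltw s z = z ∧ ∃ y ∈ Y, Eqv (R ++ L) (W.scw s z) y

/-- The set `Y` is stable under conjugation modulo `R` and `L`, its elements commute and commute with `L`. -/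
def YCond {Q : Type*} (R L Y : List (List (S Q))) : Prop :=
  (∀ y ∈ Y, ∀ q b, ∃ y' ∈ Y, Eqv (R ++ L) ([(q, b)] ++ (y ++ [(q, !b)])) y') ∧
  (∀ y ∈ Y, ∀ y' ∈ Y, EqvS R L (y ++ y') (y' ++ y)) ∧
  ∀ y ∈ Y, ∀ s ∈ L, EqvS R L (y ++ s) (s ++ y)

/-- Second certificates. -/
def Cert2 {Q X : Type*} (A : Auto Q X) : Prop :=
  ∃ (R L Y : List (List (S Q))) (k : ℕ) (B : WA Q (Fin k)) (t : X → Fin k) (l : X → List (S Q)),
    YCond R L Y ∧ Resp2 R L Y A.toWA ∧ Resp2 R L Y B ∧ PtE (EqvS R L) A B t l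

/-! ### Classes of automata -/

/-- `G` has a commutative normal subgroup `K`, contained in a subgroup `A₁` of finite index whose commutators are
in `K`, and an element of `G` fixing a letter is in `K` if and only if its section there is in `K`. -/
def Meta2 {Q X : Type*} (A : Auto Q X) : Prop :=
  ∃ K A₁ : Subgroup (Equiv.Perm (List X)), K ≤ A₁ ∧ A₁ ≤ A.G ∧ A₁.relIndex A.G ≠ 0 ∧
    (∀ g ∈ A.G, ∀ k ∈ K, g * k * g⁻¹ ∈ K) ∧ (∀ k ∈ K, ∀ k' ∈ K, k * k' = k' * k) ∧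
    (∀ g ∈ A₁, ∀ h ∈ A₁, g * h * g⁻¹ * h⁻¹ ∈ K) ∧
    ∀ g ∈ A.G, ∀ h ∈ A.G, ∀ a, (∀ w, g (a :: w) = a :: h w) → (g ∈ K ↔ h ∈ K)

/-- Any two elements of finite order of `G` commute, and a subgroup of finite index has all its commutators of
finite order. -/
def Lamp {Q X : Type*} (A : Auto Q X) : Prop :=
  (∀ g ∈ A.G, ∀ h ∈ A.G, IsOfFinOrder g → IsOfFinOrder h → g * h = h * g) ∧
  ∃ A₁ : Subgroup (Equiv.Perm (List X)), A₁ ≤ A.G ∧ A₁.relIndex A.G ≠ 0 ∧
    ∀ g ∈ A₁, ∀ h ∈ A₁, IsOfFinOrder (g * h * g⁻¹ * h⁻¹)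

/-- Every state can be reached from each state which can be reached from it. -/
def Rec {Q X : Type*} (A : Auto Q X) : Prop := ∀ q u, ∃ v, A.run q (u ++ v) = q

/-- `G` is transitive on letters. -/
def Trans {Q X : Type*} (A : Auto Q X) : Prop := ∀ a b : X, ∃ g ∈ A.G, g [a] = [b]

open Classical in
/-- `G` is amenable (Følner sets for the generators). -/
def Amen {Q X : Type*} (A : Auto Q X) : Prop :=
  ∀ N : ℕ, ∃ F : Finset (Equiv.Perm (List X)), F.Nonempty ∧ (∀ g ∈ F, g ∈ A.G) ∧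
    ∀ q, N * (F.filter fun g => A.perm q * g ∉ F).card ≤ F.card

/-- The sections at the letter `a` of the elements of `G` fixing `a` form a subgroup of index at most `n`. -/
def SecIdx {Q X : Type*} (A : Auto Q X) (a : X) (n : ℕ) : Prop :=
  ∃ E : Finset (Equiv.Perm (List X)), E.card ≤ n ∧ ∀ g ∈ A.G, ∃ e ∈ E, e ∈ A.G ∧ ∃ h ∈ A.G,
    ∀ w, h (a :: w) = a :: (e⁻¹ * g) w

/-! ### Codes -/

/-- The code of `kap`. -/
def kapC (s h s' : WC) : WC := s ++ (h ++ (s' ++ (iwC h ++ (iwC s ++ (h ++ (iwC s' ++ iwC h))))))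

/-- Elementary steps. -/
def StpSC (m : ℕ) (R L : List WC) (u v : WC) : Prop :=
  ∃ i < u.length + 1, (∃ r ∈ R, v = u.take i ++ (r ++ u.drop i)) ∨
    (∃ q < m, v = u.take i ++ ([(q, true), (q, false)] ++ u.drop i) ∨
      v = u.take i ++ ([(q, false), (q, true)] ++ u.drop i)) ∨
    ∃ s ∈ L, ∃ s' ∈ L, ∃ j < v.length + 1, ∃ n < v.length + 1,
      v = u.take i ++ (kapC s ((v.drop j).take n) s' ++ u.drop i)

/-- A chain of elementary steps from `u` to `v`. -/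
def ChainSC (m : ℕ) (R L : List WC) (c : List WC) (u v : WC) : Prop :=
  c ≠ [] ∧ c.getD 0 [] = u ∧ c.getD (c.length - 1) [] = v ∧ (∀ w ∈ c, OkC m w) ∧
    ∀ i < c.length - 1, StpSC m R L (c.getD i []) (c.getD (i + 1) []) ∨
      StpSC m R L (c.getD (i + 1) []) (c.getD i [])

/-- Some chain of the pool `K` goes from `u` to `v`. -/
def EqvSC (m : ℕ) (R L : List WC) (K : List (List WC)) (u v : WC) : Prop :=
  ∃ c ∈ K, ChainSC m R L c u v

/-- Codes of second certificates `(R, L, Y, k, B, t, l, K)`. -/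
abbrev CC2 := List WC × List WC × List WC × ℕ × Tab × List ℕ × List WC × List (List WC)

/-- Relators and the words in `L` act as required. -/
def Chk2S (m : ℕ) (T : Tab) (k : ℕ) (R L Y : List WC) (K : List (List WC)) : Prop :=
  (∀ r ∈ R, ∀ z < k, (runC T r z).1 = z ∧ EqvSC m R L K (runC T r z).2 []) ∧
  ∀ s ∈ L, ∀ z < k, (runC T s z).1 = z ∧ ∃ y ∈ Y, EqvC m (R ++ L) K (runC T s z).2 y

/-- The conditions on `Y`. -/
def ChkY (m : ℕ) (R L Y : List WC) (K : List (List WC)) : Prop :=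
  (∀ y ∈ Y, ∀ q < m, (∃ y' ∈ Y, EqvC m (R ++ L) K ([(q, true)] ++ (y ++ [(q, false)])) y') ∧
    ∃ y' ∈ Y, EqvC m (R ++ L) K ([(q, false)] ++ (y ++ [(q, true)])) y') ∧
  (∀ y ∈ Y, ∀ y' ∈ Y, EqvSC m R L K (y ++ y') (y' ++ y)) ∧
  ∀ y ∈ Y, ∀ s ∈ L, EqvSC m R L K (y ++ s) (s ++ y)

/-- The condition on the points. -/
def Chk3S (x : AC) (R L : List WC) (B : Tab) (t : List ℕ) (l : List WC) (K : List (List WC)) : Prop :=
  ∀ q < x.2.1.length, ∀ a < x.1,
    ltC B (trC x q a, true) (t.getD a 0) = t.getD (outC x q a) 0 ∧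
    EqvSC x.2.1.length R L K (scC B (trC x q a, true) (t.getD a 0) ++ l.getD a [])
      (l.getD (outC x q a) [] ++ [(q, true)])

/-- The check of a second certificate. -/
def ChkC2 (x : AC) (c : CC2) : Prop :=
  (Chk1 x c.1 c.2.2.2.1 c.2.2.2.2.1 c.2.2.2.2.2.1 c.2.2.2.2.2.2.1 ∧
    (∀ s ∈ c.2.1, OkC x.2.1.length s) ∧ ∀ s ∈ c.2.2.1, OkC x.2.1.length s) ∧
  ChkY x.2.1.length c.1 c.2.1 c.2.2.1 c.2.2.2.2.2.2.2 ∧
  Chk2S x.2.1.length (tabA x) x.1 c.1 c.2.1 c.2.2.1 c.2.2.2.2.2.2.2 ∧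
  Chk2S x.2.1.length c.2.2.2.2.1 c.2.2.2.1 c.1 c.2.1 c.2.2.1 c.2.2.2.2.2.2.2 ∧
  Chk3S x c.1 c.2.1 c.2.2.2.2.1 c.2.2.2.2.2.1 c.2.2.2.2.2.2.1 c.2.2.2.2.2.2.2

end Pool.Agent.Helper85.LN2
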