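import Pool.Agent.Helper85.LN2.Goals
import Pool.Agent.Helper56.LN.ENC1

/-! Goal ENC12 of project LN2: chains of elementary steps and `EqvS`. -/

namespace Pool.Agent.Helper85.LN2

open Pool.Agent.Helper85.LN Pool.Agent.Helper56.LN

theorem codeW_iw {m : ℕ} (w : List (S (Fin m))) : iwC (codeW w) = codeW (iw w) := by
  simp [iwC, codeW, iw, List.map_reverse, Function.comp_def]

theorem codeW_kap {m : ℕ} (s h s' : List (S (Fin m))) :
    kapC (codeW s) (codeW h) (codeW s') = codeW (kap s h s') := by
  simp only [kapC, kap, codeW_append, codeW_iw]

theorem stpSC_iff {m : ℕ} (R L : List (List (S (Fin m)))) (u v : List (S (Fin m))) :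
    StpSC m (R.map codeW) (L.map codeW) (codeW u) (codeW v) ↔ StpS R L u v := by
  constructor
  · rintro ⟨i, -, h | ⟨q, hq, h | h⟩ | ⟨s, hs, s', hs', j, -, n, -, h⟩⟩
    · obtain ⟨r, hr, h⟩ := h
      obtain ⟨r', hr', rfl⟩ := List.mem_map.1 hr
      rw [codeW_take, codeW_drop, ← codeW_append, ← codeW_append] at h
      exact ⟨u.take i, r', u.drop i, Or.inl hr', (List.take_append_drop i u).symm, codeW_inj h⟩
    · have h1 : ([(q, true), (q, false)] : WC) =
          codeW [((⟨q, hq⟩ : Fin m), true), (⟨q, hq⟩, false)] := rfl
      rw [h1, codeW_take, codeW_drop, ← codeW_append, ← codeW_append] at h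
      exact ⟨u.take i, _, u.drop i, Or.inr (Or.inl ⟨⟨q, hq⟩, true, rfl⟩),
        (List.take_append_drop i u).symm, codeW_inj h⟩
    · have h1 : ([(q, false), (q, true)] : WC) =
          codeW [((⟨q, hq⟩ : Fin m), false), (⟨q, hq⟩, true)] := rfl
      rw [h1, codeW_take, codeW_drop, ← codeW_append, ← codeW_append] at h
      exact ⟨u.take i, _, u.drop i, Or.inr (Or.inl ⟨⟨q, hq⟩, false, rfl⟩),
        (List.take_append_drop i u).symm, codeW_inj h⟩
    · obtain ⟨t, ht, rfl⟩ := List.mem_map.1 hs
      obtain ⟨t', ht', rfl⟩ := List.mem_map.1 hs'
      rw [codeW_take, codeW_drop, codeW_drop, codeW_take, codeW_kap, ← codeW_append,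
        ← codeW_append] at h
      exact ⟨u.take i, _, u.drop i, Or.inr (Or.inr ⟨t, ht, t', ht', _, rfl⟩),
        (List.take_append_drop i u).symm, codeW_inj h⟩
  · rintro ⟨p, r, s, hr, rfl, rfl⟩
    have h1 : (codeW (p ++ s)).take p.length = codeW p := by
      rw [codeW_take, List.take_left]
    have h2 : (codeW (p ++ s)).drop p.length = codeW s := by
      rw [codeW_drop, List.drop_left]
    refine ⟨p.length, ?_, ?_⟩
    · have h3 : (codeW (p ++ s)).length = p.length + s.length := by
        rw [codeW, List.length_map, List.length_append]
      omega
    · rw [h1, h2]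
      rcases hr with hr | ⟨q, b, rfl⟩ | ⟨t, ht, t', ht', h, rfl⟩
      · left
        exact ⟨codeW r, List.mem_map_of_mem hr, by rw [← codeW_append, ← codeW_append]⟩
      · right
        left
        refine ⟨q, q.2, ?_⟩
        cases b
        · right
          rw [codeW_append, codeW_append]
          rfl
        · left
          rw [codeW_append, codeW_append]
          rfl
      · right
        right
        have hl : (codeW (p ++ (kap t h t' ++ s))).length =
            p.length + (t.length + (h.length + (t'.length + (h.length + (t.length +
              (h.length + (t'.length + h.length)))))) + s.length) := by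
          simp only [codeW, List.length_map, List.length_append, kap, iw_length]
        refine ⟨codeW t, List.mem_map_of_mem ht, codeW t', List.mem_map_of_mem ht',
          p.length + t.length, by omega, h.length, by omega, ?_⟩
        have h3 : (p ++ (kap t h t' ++ s)).drop (p.length + t.length) =
            h ++ (t' ++ (iw h ++ (iw t ++ (h ++ (iw t' ++ iw h))))) ++ s := by
          have e : p ++ (kap t h t' ++ s) = (p ++ t) ++
              (h ++ (t' ++ (iw h ++ (iw t ++ (h ++ (iw t' ++ iw h))))) ++ s) := by
            simp [kap]
          rw [e, ← List.length_append, List.drop_left]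
        have h4 : ((codeW (p ++ (kap t h t' ++ s))).drop (p.length + t.length)).take h.length =
            codeW h := by
          rw [codeW_drop, h3, codeW_take, List.append_assoc, List.take_left]
        rw [h4, codeW_kap, ← codeW_append, ← codeW_append]

/-- The symmetric elementary steps. -/
def SyS {m : ℕ} (R L : List (List (S (Fin m)))) (u v : List (S (Fin m))) : Prop :=
  StpS R L u v ∨ StpS R L v u

theorem syS_symm {m : ℕ} {R L : List (List (S (Fin m)))} {u v : List (S (Fin m))}
    (h : Relation.ReflTransGen (SyS R L) u v) : Relation.ReflTransGen (SyS R L) v u := by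
  induction h with
  | refl => exact Relation.ReflTransGen.refl
  | tail _ h ih => exact Relation.ReflTransGen.head (r := SyS R L) (Or.symm h) ih

theorem eqvS_iff {m : ℕ} (R L : List (List (S (Fin m)))) (u v : List (S (Fin m))) :
    EqvS R L u v ↔ Relation.ReflTransGen (SyS R L) u v := by
  constructor
  · intro h
    induction h with
    | rel x y h => exact Relation.ReflTransGen.single (Or.inl h)
    | refl x => exact Relation.ReflTransGen.refl
    | symm x y _ ih => exact syS_symm ih
    | trans x y z _ _ ih1 ih2 => exact ih1.trans ih2
  · intro h
    induction h with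
    | refl => exact EqvS.refl _
    | tail _ h ih =>
      rcases h with h | h
      · exact ih.trans (EqvS.step h)
      · exact ih.trans (EqvS.step h).symm

theorem enc12 : S_ENC12 := by
  intro m R L u v
  constructor
  · rintro ⟨c, hc⟩
    induction c generalizing u with
    | nil => exact absurd rfl hc.1
    | cons x c ih =>
      obtain ⟨-, h0, h1, hok, hst⟩ := hc
      have hx : x = codeW u := h0
      cases c with
      | nil =>
        have h2 : x = codeW v := h1
        rw [codeW_inj (hx.symm.trans h2)]
        exact EqvS.refl _
      | cons y c =>
        obtain ⟨u', rfl⟩ := exists_codeW y (hok y (by simp))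
        have h3 : EqvS R L u' v := by
          refine ih u' ⟨by simp, rfl, ?_, fun w hw => hok w (List.mem_cons_of_mem _ hw), ?_⟩
          · simpa using h1
          · intro i hi
            have h4 := hst (i + 1) (by simp at hi ⊢; omega)
            simpa using h4
        have h5 := hst 0 (by simp)
        have h6 : StpSC m (R.map codeW) (L.map codeW) (codeW u) (codeW u') ∨
            StpSC m (R.map codeW) (L.map codeW) (codeW u') (codeW u) := by
          rw [← hx]
          simpa using h5
        rw [stpSC_iff, stpSC_iff] at h6
        rcases h6 with h6 | h6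
        · exact (EqvS.step h6).trans h3
        · exact (EqvS.step h6).symm.trans h3
  · intro h
    rw [eqvS_iff] at h
    induction h using Relation.ReflTransGen.head_induction_on with
    | refl =>
      refine ⟨[codeW v], by simp, rfl, rfl, ?_, ?_⟩
      · intro w hw
        rw [List.mem_singleton.1 hw]
        exact okC_codeW v
      · intro i hi
        simp at hi
    | @head a b h _ ih =>
      obtain ⟨c, hne, h0, h1, hok, hst⟩ := ih
      have hlen : 0 < c.length := List.length_pos_iff.2 hne
      refine ⟨codeW a :: c, by simp, rfl, ?_, ?_, ?_⟩
      · rw [← h1]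
        have h2 : (codeW a :: c).length - 1 = (c.length - 1) + 1 := by
          simp
          omega
        rw [h2, List.getD_cons_succ]
      · intro w hw
        rcases List.mem_cons.1 hw with rfl | hw
        · exact okC_codeW a
        · exact hok w hw
      · intro i hi
        cases i with
        | zero =>
          rw [List.getD_cons_zero, List.getD_cons_succ, h0, stpSC_iff, stpSC_iff]
          exact h
        | succ i =>
          rw [List.getD_cons_succ, List.getD_cons_succ]
          apply hst
          simp at hi
          omega

end Pool.Agent.Helper85.LN2
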