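import Pool.Agent.Helper85.LN2.Goals

/-!
# Virtually free groups and groups of subexponential growth (project LN2, MP_d0c558_al)
-/

namespace Pool.Agent.Helper85.LN2

open Pool.Agent.Helper85.LN Pool.Agent.Helper5.Gap

/-- The products `x₁ s x₂ s ... x_j s` with factors `x_i ∈ P` determine the factors. -/
def SepInj {G : Type*} [Group G] (P : Set G) (s : G) : Prop :=
  ∀ u v : List G, (∀ x ∈ u, x ∈ P) → (∀ x ∈ v, x ∈ P) → u.length = v.length →
    (u.map fun x => x * s).prod = (v.map fun x => x * s).prod → u = v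

/-- The automaton group has a free subgroup of finite index. -/
def VFree {Q X : Type*} (A : Auto Q X) : Prop :=
  ∃ P : Subgroup (Equiv.Perm (List X)), P ≤ A.G ∧ P.relIndex A.G ≠ 0 ∧ IsFreeGroup P

/-- The growth of the automaton group is not exponential. -/
def SubExp {Q X : Type*} (A : Auto Q X) : Prop :=
  ∀ N : ℕ, ∃ n : ℕ, growth (Set.range A.perm) (N * n) < 2 ^ n

/-- MHALL: a finitely generated subgroup of infinite index in a free group has a free complement.

Proof. Transport to `F = FreeGroup S`; elements are reduced words, `|g|` is the length, and we say that `u` is a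
prefix of `g` if `|g| = |u| + |u⁻¹ g|`.  `L` is generated by a finite set closed under inverses of elements of length
`≤ ℓ`.  Let `V₀` be the finite set of cosets `L u`, `|u| ≤ ℓ`.
(A) If `u` is a prefix of an element `l ∈ L` then `L u ∈ V₀`: write `l = t₁ ... t_k`, `t_i` generators, and spell
all `t_i`; every prefix of the reduced word of `l` is equal in `F` to some prefix of the unreduced word (induction on
reduction steps: if `u` is equal in `F` to a prefix of `p q` then it is equal to a prefix of `p x x⁻¹ q`), and a prefix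
of the unreduced word is `t₁ ... t_i p'`, `p'` a prefix of `t_{i+1}`, so it lies in the coset `L p'` and `|p'| ≤ ℓ`.
As the index is infinite there is `g` with `L g ∉ V₀`; let `|g|` be minimal among the `g` with `L g ∉ V₀`; `g ≠ 1`; let
`σ` be the last letter of `g`.
(B) For `l ∈ L`, `l ≠ 1`, the element `g` is not a prefix of `l g`.  Otherwise, as every prefix of the reduced word
of a product `l g` is a prefix of `l` or is equal to `l g''` for a prefix `g''` of `g`, either `g` is a prefix of
`l`, so `L g ∈ V₀` by (A), or `g = l g''`, so `L g'' = L g ∉ V₀` and by minimality `g'' = g`, `l = 1`; contradictions.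
(C) So for `l ∈ L`, `l ≠ 1`, the reduced word `w_l` of `g⁻¹ l g` begins with `σ⁻¹` (if `x` is the first letter of
`g⁻¹ h`, `h = l g ≠ g`, and `x ≠ σ⁻¹` then the product `g · (g⁻¹ h)` has no cancellation, so `g` is a prefix of `h`), and it
ends with `σ` (apply this to `l⁻¹`).
`F` is not commutative, so `S` has an element `τ` which is not the letter of `σ` or `σ⁻¹`.  Let `s = g τ g⁻¹`.  Let
`u ≠ v` be lists of elements of `L` of equal length with `∏ (u_i s) = ∏ (v_i s)`.  Cancel equal first factors; so we may
assume that `u₁ ≠ v₁`; put `l = v₁⁻¹ u₁ ≠ 1`; then `l s u₂ s ... u_j s = s v₂ s ... v_j s`.  Conjugate by `g`: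
`w_l τ w_{u₂} τ ... w_{u_j} τ = τ w_{v₂} τ ... w_{v_j} τ`, where `w_1` is empty; both sides are reduced words by (C), the
first begins with `σ⁻¹` and the second with `τ`, a contradiction. -/
def S_MHALL : Prop := ∀ (F : Type) [Group F] [IsFreeGroup F] (L : Subgroup F), L.FG → L.index = 0 →
  (∃ x y : F, x * y ≠ y * x) → ∃ s, SepInj (L : Set F) s

/-- GF: in a locally nontrivial automaton group the sections at a letter do not have a free complement.

Proof. See `Pool/Agent/Helper2/LN/FIDX.lean` for `mem_ball_iff`, `finite_ball`, `Lg`, `SB`, `LB`, `SB_le_LB`,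
`exists_c`.  Let `B n` be the balls, `β n = card (B n)`, so `β (n + k) ≤ β n * β k`, and let `|p|` be the least `n` with
`p ∈ B n` (`p ∈ A.G`).  Suppose that `P` is infinite.
(1) There are `C ≥ 1` and `c` with `β n ≤ C * card (P ∩ B (n + c))` for all `n`: `β n ≤ d * card (SB a (n + c₀)) ≤
d * card (LB a (n + c₀))`, and every `g ∈ LB a k` is `e * p`, `e ∈ E ∩ A.G`, `p ∈ P ∩ B (k + c₁)`, where the elements
of `E ∩ A.G` are in `B c₁`.
(2) Let `s ∈ B μ` and let `z ∈ (0, 1]` be such that `β T * z ^ T ≤ K` for all `T`.  Then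
`∑_{p ∈ P ∩ B n} z ^ |p| ≤ z ^ (-μ)` for all `n`.  Otherwise `θ = ∑_{p ∈ P ∩ B n} z ^ (|p| + μ) > 1`; for `j ≥ 1`, `θ ^ j` is
the sum of `z ^ T`, `T = ∑ (|p_i| + μ) ≤ j * (n + μ)`, over the `j`-tuples of elements of `P ∩ B n`, and for each
`T` the number of tuples with this `T` is at most `β T`, because `p₁ s ... p_j s ∈ B T` and `SepInj`.  So
`θ ^ j ≤ K * (j * (n + μ) + 1)` for all `j`, a contradiction.
(3) Let `Z` be the set of the `z ∈ (0, 1]` for which the numbers `β T * z ^ T` are bounded, and `z₀ = sup Z > 0`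
(`β T ≤ (β 1) ^ T`); all `z < z₀` are in `Z`.  Then `β T * z₀ ^ T ≥ 1` for all `T`: otherwise, `z₀ < 1`,
`T ≥ 1` and for some `z ∈ (z₀, 1]` still `β T * z ^ T < 1`, which by submultiplicativity implies `z ∈ Z`.
(4) Case `z₀ = 1`: by (2) `∑_{p ∈ P ∩ B n} z ^ |p| ≤ z ^ (-μ)` for all `z < 1`, so for `z → 1` `card (P ∩ B n) ≤ 1` for all
`n`, so `P` is finite, a contradiction.  Case `z₀ < 1`: for `z < z₀` and all `n ≥ c`, since
`z ^ |p| ≥ (1 - z) * ∑_{s = |p|}^{n} z ^ s` for `p ∈ B n`,
`z ^ (-μ) ≥ ∑_{p ∈ P ∩ B n} z ^ |p| ≥ (1 - z) * ∑_{s ≤ n} card (P ∩ B s) * z ^ s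
≥ (1 - z) * z ^ c / C * ∑_{t ≤ n - c} β t * z ^ t ≥ (1 - z₀) * z ^ c / C * ∑_{t ≤ n - c} (z / z₀) ^ t`.
For `z ∈ (z₀ / 2, z₀)`, `n → ∞` and then `z → z₀` the right-hand side is unbounded, the left-hand side is at most
`(z₀ / 2) ^ (-μ)`, a contradiction. -/
def S_GF : Prop := ∀ (m d : ℕ) (A : Auto (Fin m) (Fin d)) (a : Fin d)
  (P : Subgroup (Equiv.Perm (List (Fin d)))) (s : Equiv.Perm (List (Fin d))), A.LN → P ≤ A.G →
  s ∈ A.G → (∀ x ∈ P, InL A a x) →
  (∃ E : Finset (Equiv.Perm (List (Fin d))), ∀ g, InL A a g → ∃ e ∈ E, e ∈ A.G ∧ e⁻¹ * g ∈ P) →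
  SepInj (P : Set (Equiv.Perm (List (Fin d)))) s → (P : Set (Equiv.Perm (List (Fin d)))).Finite

/-- VF1: virtually free groups.

Proof. Let `P₀` be as in `VFree`, `L = Lg A a = {g | InL A a g}` (a subgroup of `A.G`; `Pool/Agent/Helper2/LN/FIDX.lean`)
and `P = L ⊓ P₀`, of finite index in `L` (`P₀` has finite index in `A.G`); so there is `E` as in GF.  If
`P.relIndex P₀ ≠ 0` then `P`, hence `L`, has finite index in `A.G` and we are done.  Suppose `P.relIndex P₀ = 0`.
`L` is finitely generated: the stabilizer of `[a]` in `A.G` has finite index (finite orbit), so it is finitely generated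
(`Subgroup.fg_of_index_ne_zero`), and `L` is its image under the homomorphism `section at a`.  So `P` is finitely generated.
If `P₀` is not commutative then there is `s ∈ P₀` with `SepInj P s` (MHALL for `P.subgroupOf P₀`) and `P` is finite by GF.
If `P₀` is commutative then, being free, it is cyclic (infinite or trivial), and a subgroup of infinite index of it is
trivial.  In both cases `P` is finite, so `L` is finite, the stabilizer of `[a]` in `A.G` is finite, because `section at a`
is injective on it by `LN`, and `A.G` is finite; then `SecFin A a` holds with `E` the set of all elements of `A.G`. -/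
def S_VF1 : Prop := S_MHALL → S_GF → ∀ (m d : ℕ) (A : Auto (Fin m) (Fin d)), A.LN → VFree A →
  ∀ a, SecFin A a

/-- VFP: finitely generated virtually free groups are finitely presented.

Proof. The normal core `N` of `P` has finite index and is free (`subgroupIsFreeOfIsFree`) and finitely generated
(`Subgroup.fg_of_index_ne_zero`), so it is free of finite rank and finitely presented; `G ⧸ N` is finite, hence
finitely presented; use `Pool.Agent.Helper61.LN.ext_fp` (module `Pool.Agent.Helper61.LN.VNFP`). -/
def S_VFP : Prop := ∀ (G : Type) [Group G] (P : Subgroup G), Group.FG G → P.index ≠ 0 →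
  IsFreeGroup P → Group.IsFinitelyPresented G

/-- SUBX: subexponential growth.

Proof. Notation of FIDX (`Pool/Agent/Helper2/LN/FIDX.lean`).  Suppose that `SecFin A a` fails.  Then for every `r` there
are at least `r + 1` cosets `g L`, `g ∈ B r` (`Om_card`), so `β (r + k) ≥ (r + 1) * card (L ∩ B k)` (products `g * l`,
one `g ∈ B r` for each coset, `l ∈ L ∩ B k`, as in `LB_card`), and `card (L ∩ B k) ≥ card (SB a k)`,
`β n ≤ d * card (SB a (n + c))`.  So `d * β (r + c + n) ≥ (r + 1) * β n`.  Take `r = 2 * d`, `M = r + c`: then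
`β (n + M) ≥ 2 * β n` (`d ≥ 1`), so `β (M * j) ≥ 2 ^ j` for all `j`, contrary to `SubExp` for `N = M`. -/
def S_SUBX : Prop := ∀ (m d : ℕ) (A : Auto (Fin m) (Fin d)), A.LN → SubExp A → ∀ a, SecFin A a

end Pool.Agent.Helper85.LN2
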