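import Pool.Agent.Helper85.LN2.Goals

/-!
# Orbit versions of the goals on amenable groups (project LN2, MP_d0c558_al)
-/

namespace Pool.Agent.Helper85.LN2

open Pool.Agent.Helper85.LN

/-- The letter `x` is in the orbit of the letter `a`. -/
def InOrb {Q X : Type*} (A : Auto Q X) (a x : X) : Prop := ∃ g ∈ A.G, g [a] = [x]

/-- No state is transient for the letters in the orbit of `a`: every state can be reached again, by letters of this
orbit, from each state which can be reached from it by such letters. -/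
def RecAt {Q X : Type*} (A : Auto Q X) (a : X) : Prop :=
  ∀ (q : Q) (u : List X), (∀ x ∈ u, InOrb A a x) →
    ∃ v : List X, (∀ x ∈ v, InOrb A a x) ∧ A.run q (u ++ v) = q

open Classical in
/-- AM1O: as AM1 (`Pool/Agent/Helper37/LN2/AM1.lean`), with the set `O × G`, `O` a nonempty set of letters stable
under `G`, in place of `Fin d × G`. -/
def S_AM1O : Prop := ∀ (m d : ℕ) (A : Auto (Fin m) (Fin d)) (O : Finset (Fin d)) (ω : Fin m → ℝ),
  O.Nonempty → (∀ q, ∀ x ∈ O, A.out q x ∈ O) → A.LN →
  (∀ q, 0 < ω q) → (∀ q', (∑ q, ∑ a ∈ O, if A.tr q a = q' then ω q else 0) = O.card * ω q') → Amen A →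
  ∀ N : ℕ, ∃ F : Finset (Equiv.Perm (List (Fin d))), F.Nonempty ∧ (∀ g ∈ F, g ∈ A.G) ∧
    (∀ q, N * (F.filter fun g => A.perm q * g ∉ F).card ≤ F.card) ∧
    ∃ x ∈ O, ∃ h ∈ A.G, F.card ≤ O.card * (F.filter fun g => InL A x (g * h⁻¹)).card

/-- AM2O: as AM2 (`Pool/Agent/Helper2/LN2/AM2.lean`), for the orbit `O` of the letter `a`.  The weights come from STAT
(`Pool.Agent.Helper58.LN2.stat`) applied to the transitions `fun q i => A.tr q (e i)`, where `e` is an enumeration
of `O` by `Fin O.card`. -/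
def S_AM2O : Prop := S_STAT → S_AM1O → ∀ (m d : ℕ) (A : Auto (Fin m) (Fin d)) (a : Fin d), A.LN →
  RecAt A a → Amen A → SecIdx A a {x | InOrb A a x}.ncard

end Pool.Agent.Helper85.LN2
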