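import Pool.Agent.Helper85.LN2.Own
import Pool.Agent.Helper85.LN2.Orb
import Pool.Agent.Helper85.LN2.Fr
import Pool.Agent.Helper85.LN.Final

/-! Assembly of project LN2 from the goals. -/

namespace Pool.Agent.Helper85.LN2

open Pool.Agent.Helper85.LN Pool.Agent.Helper5.Gap

/-- The sections at every letter form a subgroup of finite index, or the group is amenable and there are no transient
states, or its growth is not exponential, or it is virtually free. -/
def SecA {Q X : Type*} (A : Auto Q X) : Prop :=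
  (∀ a, SecFin A a) ∨ (Amen A ∧ ∀ a, RecAt A a) ∨ SubExp A ∨ VFree A

/-- The first result of project LN2. -/
def Res3 : Prop := ∃ f : AC →. Bool, Partrec f ∧ ∀ (m d : ℕ) (A : Auto (Fin m) (Fin d)),
  (∀ b ∈ f (enc A), (b = true ↔ A.LN)) ∧
  (¬ A.LN → (f (enc A)).Dom) ∧
  (SecA A → (Group.IsFinitelyPresented A.G ∨ Meta2 A ∨ Lamp A) → (f (enc A)).Dom) ∧
  (PolyAct A ∨ Reach A ∨ Contr A ∨ BiRev A ∨ VFree A → (f (enc A)).Dom)

/-- The second result of project LN2. -/
def Res4 : Prop := ∀ (m d : ℕ) (A : Auto (Fin m) (Fin d)) (a : Fin d), A.LN → RecAt A a → Amen A →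
  SecIdx A a {x | InOrb A a x}.ncard

theorem SecIdx.secFin {Q X : Type*} {A : Auto Q X} {a : X} {n : ℕ} (h : SecIdx A a n) :
    SecFin A a := by
  obtain ⟨E, _, hE⟩ := h
  exact ⟨E, hE⟩

/-- The facts from project LN which are used. -/
structure Facts : Prop where
  vios : S_VIOS
  pres : S_PRES
  certg : S_CERTG
  certa : S_CERTA
  birev : S_BIREV
  gt1 : S_GT1
  gt2 : S_GT2
  grown : S_GROWN
  fidx : S_FIDX
  grom : S_GROM
  vnfp : S_VNFP
  pvio : S_PVIO
  enc0 : S_ENC0
  enc1 : S_ENC1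
  encv : S_ENCV

theorem assemble3 (F : Facts) (resp2 : S_RESP2) (noe : S_NOE) (fpq : S_FPQ) (certm : S_CERTM)
    (lampm : S_LAMPM) (r4 : Res4) (pchk2 : S_PCHK2) (enc12 : S_ENC12) (encc2 : S_ENCC2)
    (mhall : S_MHALL) (gf : S_GF) (vf1 : S_VF1) (vfp : S_VFP) (subx : S_SUBX) : Res3 := by
  obtain ⟨f, hf, h1, h2⟩ := search ChkC2 VioC pchk2 F.pvio
  refine ⟨f, hf, fun m d A => ?_⟩
  have hC : (∃ c, ChkC2 (enc A) c) ↔ Cert2 A := encc2 F.enc0 F.enc1 enc12 m d A
  have hV : (∃ c, VioC (enc A) c) ↔ ¬ A.LN := (F.encv F.enc0 m d A).trans (F.vios m d A).symm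
  have snd2 : Cert2 A → A.LN := by
    rintro ⟨R, L, Y, k, B, t, l, hY, hA, hB, hp⟩
    exact gsnd m d A (EqvS R L) k B t l (EqvS.cong R L)
      (resp2 cgrp (Fin m) (Fin d) R L Y A.toWA hA hY) (resp2 cgrp (Fin m) (Fin k) R L Y B hB hY) hp
  have hnot : ¬ A.LN → (f (enc A)).Dom := fun h => h2 _ (Or.inr (hV.2 h))
  have hcert : (A.LN → Cert2 A) → (f (enc A)).Dom := by
    intro h
    by_cases hA : A.LN
    · exact h2 _ (Or.inl (hC.2 (h hA)))
    · exact hnot hA
  have hfp : A.LN → Group.IsFinitelyPresented A.G → (∀ a, SecFin A a) → Cert A := by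
    intro hA hG hS
    obtain ⟨R, hR⟩ := F.pres m d A hG
    exact F.certa F.certg m d A R hA hS hR
  have hpc : A.LN → PolyG (Set.range A.perm) → Cert A := by
    intro hA hP
    exact hfp hA (F.vnfp _ (fg_G A) (F.grom m d A hP)) (F.fidx m d A hA hP)
  have hreach : Reach A → (f (enc A)).Dom :=
    fun h => hcert fun hA => cert_cert2 (hpc hA (F.gt2 F.gt1 m d A hA h))
  refine ⟨?_, hnot, ?_, ?_⟩
  · intro b hb
    rcases h1 _ b hb with ⟨rfl, h⟩ | ⟨rfl, h⟩
    · exact ⟨fun _ => snd2 (hC.1 h), fun _ => rfl⟩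
    · exact ⟨fun h' => absurd h' (by decide), fun h' => absurd h' (hV.1 h)⟩
  · intro hS h
    apply hcert
    intro hA
    have hS' : ∀ a, SecFin A a := by
      rcases hS with hS | ⟨h3, h4⟩ | h3 | h3
      · exact hS
      · exact fun a => (r4 m d A a hA (h4 a) h3).secFin
      · exact subx m d A hA h3
      · exact vf1 mhall gf m d A hA h3
    rcases h with h | h | h
    · exact cert_cert2 (hfp hA h hS')
    · exact certm cgrp certg2 noe fpq m d A hA hS' h
    · exact certm cgrp certg2 noe fpq m d A hA hS' (lampm m d A hA h)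
  · rintro (h | h | h | h | h)
    · exact hreach (polyAct_reach A h)
    · exact hreach h
    · exact hcert fun hA => cert_cert2 (hpc hA (F.grown m d A hA h))
    · exact hcert fun _ => cert_cert2 (F.birev m d A h)
    · refine hcert fun hA => cert_cert2 (hfp hA ?_ (vf1 mhall gf m d A hA h))
      obtain ⟨P, h1, h2, h3⟩ := h
      have : IsFreeGroup P := h3
      have e : P.subgroupOf A.G ≃* P := Subgroup.subgroupOfEquivOfLe h1
      exact vfp _ (P.subgroupOf A.G) (fg_G A) h2 (IsFreeGroup.ofMulEquiv e.symm)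

end Pool.Agent.Helper85.LN2
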