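import Pool.Agent.Helper85.LN.Done
import Pool.Agent.Helper85.LN2.Final
import Pool.Agent.Helper85.LN2.ENC12
import Pool.Agent.Helper39.LN2.AM2O
import Pool.Agent.Helper40.LN2.PCHK2
import Pool.Agent.Helper42.LN2.CERTM
import Pool.Agent.Helper49.LN2.RESP2
import Pool.Agent.Helper49.LN2.VF1
import Pool.Agent.Helper5.LN2.VFP
import Pool.Agent.Helper50.LN2.MHALL
import Pool.Agent.Helper58.LN2.STAT
import Pool.Agent.Helper60.LN2.ENCC2
import Pool.Agent.Helper61.LN2.FPQ
import Pool.Agent.Helper61.LN2.NOE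
import Pool.Agent.Helper69.LN2.LAMPM
import Pool.Agent.Helper93.LN2.SUBX
import Pool.Agent.Helper94.LN2.AM1O
import Pool.Agent.Helper94.LN2.GF

/-! The results of project LN2. -/

namespace Pool.Agent.Helper85.LN2

open Pool.Agent.Helper85.LN

theorem facts : Facts where
  vios := Helper69.LN.vios
  pres := Helper89.LN.pres
  certg := Helper40.LN.certg
  certa := Helper31.LN.certa
  birev := Helper69.LN.birev
  gt1 := Helper90.LN.gt1
  gt2 := Helper55.LN.gt2
  grown := Helper32.LN.GROWN.grown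
  fidx := Helper2.LN.fidx
  grom := Helper59.LN.grom
  vnfp := Helper61.LN.vnfp
  pvio := Helper5.LN.pvio
  enc0 := Helper89.LN.enc0
  enc1 := Helper56.LN.enc1
  encv := Helper49.LN.encv

theorem res4 : Res4 := Helper39.LN2.am2o Helper58.LN2.stat Helper94.LN2.am1o

theorem res3 : Res3 :=
  assemble3 facts Helper49.LN2.resp2 Helper61.LN2.noe Helper61.LN2.fpq Helper42.LN2.certm
    Helper69.LN2.lampm res4 Helper40.LN2.pchk2 enc12 Helper60.LN2.encc2 Helper50.LN2.MHALL.mhall
    Helper94.LN2.gf Helper49.LN2.vf1 Helper5.LN2.vfp Helper93.LN2.subx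

end Pool.Agent.Helper85.LN2
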