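import Pool.Agent.Helper85.LN2.Basic

/-!
# Goals of project LN2 (MP_d0c558_al)

Notation in the proofs: `w@a` is the section `A.toWA.scw w a` of a word `w` of signed states at the letter `a`
and `w(a)` is `A.toWA.ltw w a`.  Basic facts: `Pool/Agent/Helper85/LN/Basic.lean` (`val_apply_cons`,
`val_append`, `val_iw`, `mem_G_iff`, `LN_iff`, `ltw_append`, `scw_append`, `scw_iw`, `ltw_of_val_eq_one`,
`scw_of_val_eq_one`, algebra of `Eqv`) and `Pool/Agent/Helper85/LN2/Basic.lean` (algebra of `EqvS`, `Cong`).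
-/

namespace Pool.Agent.Helper85.LN2

open Pool.Agent.Helper85.LN Pool.Agent.Helper5.Gap

/-- CGRP: every congruence is the equality in a group. -/
def S_CGRP : Prop := ∀ (Q : Type) (E : List (S Q) → List (S Q) → Prop), Cong E →
  ∃ (P : Type) (_ : Group P) (γ : Q → P), (∀ u v, E u v ↔ ev γ u = ev γ v) ∧ ∀ p, ∃ w, ev γ w = p

/-- GSND: the soundness of certificates, for an abstract congruence. -/
def S_GSND : Prop := ∀ (m d : ℕ) (A : Auto (Fin m) (Fin d)) (E : List (S (Fin m)) → List (S (Fin m)) → Prop)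
  (k : ℕ) (B : WA (Fin m) (Fin k)) (t : Fin d → Fin k) (l : Fin d → List (S (Fin m))),
  Cong E → RespE E A.toWA → RespE E B → PtE E A B t l → A.LN

/-- RESP2: second certificates are respected.

Proof. Let `P`, `γ` be the group of the congruence `EqvS R L` (CGRP, `EqvS.cong`); write `[w]` for `ev γ w`, so that
`EqvS R L u v ↔ [u] = [v]`, `[u ++ v] = [u] * [v]`, `[iw u] = [u]⁻¹`; write `u ≈ v` for `Eqv (R ++ L) u v`.
Let `Λ` be the normal closure of `{[s] | s ∈ L}` in `P`.
(a) `Λ` is commutative: it is generated by the conjugates `[h] [s] [h]⁻¹`, `s ∈ L` (all elements of `P` are of the form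
`[h]`), and `[s]` commutes with `[h] [s'] [h]⁻¹` by `EqvS.kap`.
(b) `u ≈ v` implies `[u] ∈ Λ * [v]`: induction on `Relation.EqvGen`; for a step `u = p ++ t`, `v = p ++ (r ++ t)` with
`r ∈ R` or trivial we have `[u] = [v]`, and for `r ∈ L` we have `[v] = ([p] [r] [p]⁻¹) [u]`.
(c) Let `𝒴` be the set of words `x` with `x ≈ y` for some `y ∈ Y`.  If `x ∈ 𝒴` then `g ++ (x ++ iw g) ∈ 𝒴` for all
words `g` (induction on `g`, first part of `YCond`).
(d) For `y ∈ Y`, `s ∈ L` and a word `g`, `[y]` commutes with `[g] [s] [g]⁻¹`: `[g]⁻¹ [y] [g] ∈ Λ * [y']` for some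
`y' ∈ Y` by (c) and (b), `Λ` commutes with `[s]` by (a) and `[y']` commutes with `[s]` by `YCond`.  So `[y]` commutes
with all elements of `Λ`.
(e) If `x, x' ∈ 𝒴` then `[x]` and `[x']` commute: they are in `Λ * [y]`, `Λ * [y']`; use (a), (d) and `YCond`.  By (c)
also `[x]` and `[g] [x'] [g]⁻¹` commute.
Now the claim, by induction on `Relation.EqvGen` as in `Resp.eqv` (`Pool/Agent/Helper85/LN/Basic.lean`): it is enough
to show `W.ltw r z = z` and `EqvS R L (W.scw r z) []` for the relators `r` in a step.  For `r ∈ R` this is `Resp2`, for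
trivial relators see `Resp.eqv`, and for `r = kap s h s'`: `s` and `s'` fix all letters, so `W.ltw r z = z`, and
with `z' = W.ltw (iw h) z`, `g = W.scw h z'`, `x = W.scw s z`, `x' = W.scw s' z'` the section of `r` at `z` is
`x ++ (g ++ (x' ++ (iw g ++ (iw x ++ (g ++ (iw x' ++ iw g))))))` (`scw_append`, `scw_iw`), where `x, x' ∈ 𝒴` by
`Resp2`; use (e). -/
def S_RESP2 : Prop := S_CGRP → ∀ (Q Z : Type) (R L Y : List (List (S Q))) (W : WA Q Z),
  Resp2 R L Y W → YCond R L Y → RespE (EqvS R L) W

/-- CERTG2: construction of the biset, in an abstract group. -/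
def S_CERTG2 : Prop := ∀ (H : Type) [Group H] (m d : ℕ) (act : H →* Equiv.Perm (Fin d))
  (sec : H → Fin d → H) (γ : Fin m → H) (tr : Fin m → Fin d → Fin m),
  (∀ g h a, sec (g * h) a = sec g (act h a) * sec h a) →
  (∀ g a, act g a = a → sec g a = 1 → g = 1) →
  (∀ a, ∃ E : Finset H, ∀ g, ∃ e ∈ E, ∃ h, act h a = a ∧ sec h a = e⁻¹ * g) →
  Subgroup.closure (Set.range γ) = ⊤ → (∀ q a, γ (tr q a) = sec (γ q) a) →
  ∃ (k : ℕ) (B : WA (Fin m) (Fin k)) (t : Fin d → Fin k) (l : Fin d → List (S (Fin m))),
    (∀ w, ev γ w = 1 → ∀ z, B.ltw w z = z ∧ ev γ (B.scw w z) = 1) ∧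
    (∀ w z, B.ltw w z = z → ∃ x τ, act (ev γ (B.scw w z)) x = x ∧
      sec (ev γ (B.scw w z)) x = τ⁻¹ * ev γ w * τ) ∧
    ∀ q a, B.lt (tr q a, true) (t a) = t (act (γ q) a) ∧
      ev γ (B.sc (tr q a, true) (t a)) * ev γ (l a) = ev γ (l (act (γ q) a)) * γ q

/-- NOE: a form of a theorem of P. Hall.

Proof. `A₁` is finitely generated (finite index in a finitely generated group,
`Subgroup.fg_of_index_ne_zero`), and `M` is the normal closure in `A₁` of the finite set `T'` of the conjugates `c t c⁻¹`,
`t ∈ T`, `c` in a finite set of representatives of the cosets of `A₁`.  Let `V` be the abelian group `M ⧸ ⁅M, M⁆` written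
additively (for example `Additive (Abelianization M)`), on which `A₁` acts by conjugation; `M` acts trivially, so the
group `Γ = A₁ ⧸ M`, which is commutative (`⁅A₁, A₁⁆ ≤ M`) and finitely generated, acts, and `V` is a module over the
commutative ring `MonoidAlgebra ℤ Γ` (`MonoidAlgebra.lift`, which works for the noncommutative target
`Module.End ℤ V`; `Module.compHom`).  This ring is of finite type over `ℤ`
(`MonoidAlgebra.finiteType_of_fg` or similar), hence Noetherian (`Algebra.FiniteType.isNoetherianRing`), and `V` is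
generated by the image of `T'`, so `V` is a Noetherian module and the image of `N` in `V`, a submodule because `N` is
normal, is generated by a finite set, the image of a finite set `R ⊆ N`.  So every element of `N` is, modulo
`⁅M, M⁆`, a product of conjugates of elements of `R` and their inverses. -/
def S_NOE : Prop := ∀ (F : Type) [Group F] (M N A₁ : Subgroup F), Group.FG F → M.Normal → N.Normal →
  (∃ T : Set F, T.Finite ∧ M = Subgroup.normalClosure T) → N ≤ M → ⁅M, M⁆ ≤ N → M ≤ A₁ →
  A₁.index ≠ 0 → ⁅A₁, A₁⁆ ≤ M →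
  ∃ R : Set F, R.Finite ∧ R ⊆ N ∧ N = Subgroup.normalClosure R ⊔ ⁅M, M⁆

/-- FPQ: some virtually abelian quotients.

Proof. Let `Ā = A₁ ⧸ K₀` (work in `G ⧸ K₀`): it is finitely generated and its commutators are in the finite group
`K ⧸ K₀`.  So each element has finitely many conjugates in `Ā`, the centralizers of the finitely many generators have
finite index in `Ā`, and so has their intersection, the centre of `Ā`.  Let `A₂` be the preimage of the centre in
`G`.  So `G ⧸ K₀` is virtually abelian, hence virtually nilpotent, and finitely presented by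
`Pool.Agent.Helper61.LN.vnfp` (module `Pool.Agent.Helper61.LN.VNFP`). -/
def S_FPQ : Prop := ∀ (G : Type) [Group G] (K₀ K A₁ : Subgroup G) [K₀.Normal] [K.Normal], Group.FG G →
  K₀ ≤ K → K₀.relIndex K ≠ 0 → K ≤ A₁ → A₁.index ≠ 0 → ⁅A₁, A₁⁆ ≤ K →
  Group.IsFinitelyPresented (G ⧸ K₀) ∧
    ∃ A₂ : Subgroup G, K₀ ≤ A₂ ∧ A₂.index ≠ 0 ∧ ⁅A₂, A₂⁆ ≤ K₀

/-- CERTM: existence of second certificates.

Proof. As in `Pool.Agent.Helper31.LN.certa` apply CERTG2 to `H = A.G` with `act`, `sec`, `γ` from there; get
`k, B, t, l`.  Let `K' = K.subgroupOf A.G` (normal), `A₁' = A₁.subgroupOf A.G` (index `≠ 0`).  The permutation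
`B.ltw w` depends only on the value of `w` (first conclusion), so `A.G` acts on `Fin d` and on `Fin k`; let `K₀` be
the subgroup of the elements of `K'` which act trivially on both; it is normal in `A.G` and of finite index in `K'`.
By FPQ `A.G ⧸ K₀` is finitely presented and there is `A₂` of finite index with `⁅A₂, A₂⁆ ≤ K₀ ≤ A₂`.
Let `F = FreeGroup (Fin m)`, `ψ : F →* A.G` the lift of `γ` (surjective), `N = ψ.ker`, `M₀ = K₀.comap ψ`.  By
`Pool.Agent.Helper89.LN.ker_fin` (applied to `F →* A.G ⧸ K₀`) `M₀` is the normal closure of a finite set; let `L` be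
the list of the reduced words of its elements.  `⁅M₀, M₀⁆ ≤ N` as `K` is commutative.  By NOE, applied to
`M := M₀`, `N`, `A₁ := A₂.comap ψ`, there is a finite set, i.e. a list `R` of words of value one, with
`N = normalClosure R ⊔ ⁅M₀, M₀⁆`.
(1) `EqvS R L u v ↔ A.val u = A.val v`.  From left to right: the relators have value one (for `kap s h s'`:
`val s`, `val s'` are in `K₀`, normal and commutative).  From right to left: it is enough to show that
`val w = 1` implies `EqvS R L w []`.  Let `P`, `γ'` be the group of `EqvS R L` (CGRP, `EqvS.cong`) and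
`θ : F →* P` the lift of `γ'`, `θ (mk w) = ev γ' w`; `θ` is trivial on `R`, and the images of the conjugates of
the elements of `L` commute (`EqvS.kap`), so `θ (M₀)` is commutative, `θ` is trivial on `⁅M₀, M₀⁆` and on `N`.
(2) `val x ∈ K₀ → Eqv (R ++ L) x []`, as `mk x ∈ M₀ = normalClosure L` (see `eqv_of_mk`, `eqvSub_normal` in
`Pool/Agent/Helper89/LN/PRES.lean`).
Let `Y` be a list of words such that the values are in `K` and represent all cosets of `K₀` in `K'`; so for every word
`x` with `val x ∈ K` there is `y ∈ Y` with `Eqv (R ++ L) x y`.      (3)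
`YCond`: conjugates of elements of `K` are in `K`, (3); commutativity of `K` and (1).
`Resp2` for `A.toWA`: for `r ∈ R` use `ltw_of_val_eq_one`, `scw_of_val_eq_one` and (1).  For `s ∈ L`: `val s ∈ K₀`
fixes all letters, and the value `h` of the section at `a` satisfies `val s (a :: u) = a :: h u`, so `h ∈ K` by the
last condition of `Meta2`; use (3).
`Resp2` for `B`: for `r ∈ R` use the first conclusion of CERTG2 and (1).  For `s ∈ L`: `B.ltw s z = z` by the
definition of `K₀`; by the second conclusion of CERTG2 `σ = ev γ (B.scw s z)` fixes a letter `x` and its section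
there is conjugate to `val s`, so it is in `K`; by the last condition of `Meta2` (from right to left) `σ ∈ K`; use (3).
`PtE`: third conclusion of CERTG2 and (1). -/
def S_CERTM : Prop := S_CGRP → S_CERTG2 → S_NOE → S_FPQ → ∀ (m d : ℕ) (A : Auto (Fin m) (Fin d)),
  A.LN → (∀ a, SecFin A a) → Meta2 A → Cert2 A

/-- LAMPM: lamplighter type groups.

Proof. `K` = the set of the elements of finite order of `A.G`, a subgroup because they commute, normal in `A.G` and
commutative.  Take `A₁ ⊔ K` in place of `A₁`: its elements are the products `g * k`, `g ∈ A₁`, `k ∈ K`, and modulo `K` (in the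
quotient of `A.G` by the normal subgroup `K.subgroupOf A.G`) the commutator of `g * k` and `g' * k'` is that of `g` and
`g'`, so it is in `K`; `(A₁ ⊔ K).relIndex A.G ≠ 0`.  Last condition: let `g (a :: w) = a :: h w` for all `w`; then
`(g ^ n) (a :: w) = a :: (h ^ n) w`; so `g ^ n = 1` implies `h ^ n = 1`, and `h ^ n = 1` implies `g ^ n = 1` by
`LN` (with `u = [a]`). -/
def S_LAMPM : Prop := ∀ (m d : ℕ) (A : Auto (Fin m) (Fin d)), A.LN → Lamp A → Meta2 A

/-! ### Amenable groups -/

/-- STAT: positive stationary weights.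

Proof. If `m = 0` or `d = 0` this is trivial (`ω = 1`).  Let `T ω q' = (1/d) * ∑ q, ∑ a, if tr q a = q' then ω q else 0`,
a linear map which keeps the set `Δ` of the `ω ≥ 0` with sum `m` (compact, convex).  Let `ω₀ = 1` and `ω_n` the mean of
`ω₀, T ω₀, ..., T^(n-1) ω₀`; a limit point `ω` of the sequence is in `Δ` and satisfies `T ω = ω` (as
`T ω_n - ω_n = (T^n ω₀ - ω₀) / n → 0`).  Say that `q'` is reachable from `q` if `q' = u.foldl tr q` for some `u`; by
hypothesis this is an equivalence relation.  Let `C` be a class; it is closed under the transitions and so is its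
complement, so `∑_{q ∈ C} (T ω) q = ∑_{q ∈ C} ω q` for all `ω`, and so `∑_{q ∈ C} ω q = card C > 0` for the limit `ω`.
If `ω q' = 0` then `ω q = 0` for all `q` with a transition to `q'` (`T ω = ω`, `ω ≥ 0`), hence for all `q` in the
class of `q'`, a contradiction. -/
def S_STAT : Prop := ∀ (m d : ℕ) (tr : Fin m → Fin d → Fin m),
  (∀ (q : Fin m) (u : List (Fin d)), ∃ v : List (Fin d), (u ++ v).foldl tr q = q) →
  ∃ ω : Fin m → ℝ, (∀ q, 0 < ω q) ∧
    ∀ q', (∑ q, ∑ a, if tr q a = q' then ω q else 0) = d * ω q'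

/-- `g` is the section at `x` of an element of `G` fixing `x`. -/
def InL {Q X : Type*} (A : Auto Q X) (x : X) (g : Equiv.Perm (List X)) : Prop :=
  ∃ s ∈ A.G, ∀ w, s (x :: w) = x :: g w

open Classical in
/-- AM1: a Følner set with many elements in one coset.

Proof. Write `g(x)` for the letter and `g@x` for the section (`g ∈ G = A.G`); `G` acts from the left on `Fin d × G` by
`g • (x, h) = (g(x), (g@x) * h)`, and this action is free: `g(x) = x`, `g@x = 1` imply `g = 1` (`LN`).  For a
finite set `F ⊆ G` let `∂F = ∑ q, ω q * card {g ∈ F | q g ∉ F}` and for a finite set `𝓕 ⊆ Fin d × G` let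
`∂𝓕 = ∑ q, ω q * card {z ∈ 𝓕 | q • z ∉ 𝓕}`.  By `Amen` for every `ε > 0` there is a nonempty finite `F ⊆ G` with
`∂F ≤ ε * card F`; let `F` be such a set with `card F` minimal.  Let `𝓕 = Fin d × F`.  Then
`∂𝓕 = ∑ q, ω q * ∑ x, card {h ∈ F | (q@x) h ∉ F} = ∑ q', (∑_{q, x, q@x = q'} ω q) * card {h ∈ F | q' h ∉ F}
= d * ∂F ≤ ε * card 𝓕`.  The set `𝓕` is the disjoint union of its intersections `𝓕_O` with the `G`-orbits
`O`, and `∂𝓕 = ∑ ∂𝓕_O` (`q • z` is in the orbit of `z`), so for some `O` with `𝓕_O` nonempty `∂𝓕_O ≤ ε * card 𝓕_O`.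
Fix `o ∈ O`; the map `g ↦ g • o` is a bijection `G → O`; let `F' = {g | g • o ∈ 𝓕_O}`, a nonempty finite set with
`card F' = card 𝓕_O` and `∂F' = ∂𝓕_O ≤ ε * card F'`.  By minimality `card F ≤ card F' = card 𝓕_O`, and `𝓕_O` is the
union over `x` of the sets `{h ∈ F | (x, h) ∈ O}`, so for some `x` the set `F_x = {h ∈ F | (x, h) ∈ O}` satisfies
`card F ≤ d * card F_x`.  It is nonempty; fix `h₀ ∈ F_x`; for `h ∈ F_x` there is `s ∈ G` with
`s(x) = x`, `(s@x) h₀ = h`, so `InL A x (h * h₀⁻¹)`.
Finally `ω q * card {g ∈ F | q g ∉ F} ≤ ∂F ≤ ε * card F` for each `q`; choose `ε = min ω / (N + 1)` (if there is no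
state then `G` is trivial; `ε = 1` will do). -/
def S_AM1 : Prop := ∀ (m d : ℕ) (A : Auto (Fin m) (Fin d)) (ω : Fin m → ℝ), 0 < d → A.LN →
  (∀ q, 0 < ω q) → (∀ q', (∑ q, ∑ a, if A.tr q a = q' then ω q else 0) = d * ω q') → Amen A →
  ∀ N : ℕ, ∃ F : Finset (Equiv.Perm (List (Fin d))), F.Nonempty ∧ (∀ g ∈ F, g ∈ A.G) ∧
    (∀ q, N * (F.filter fun g => A.perm q * g ∉ F).card ≤ F.card) ∧
    ∃ x, ∃ h ∈ A.G, F.card ≤ d * (F.filter fun g => InL A x (g * h⁻¹)).card

/-- AM2: the index bound.

Proof. `d > 0` as there is a letter `a`.  For a letter `x` let `L_x = {g | InL A x g}`, a subgroup of `A.G`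
(for `g = A.val w`, `w(x) = x`, it is the value of `w@x`; all elements of `L_x` are in `A.G`).  Suppose that `SecIdx A a d` fails:
then there are more than `d` left cosets of `L_a` in `A.G` (if `g₁, ..., g_j`, `j ≤ d`, represent all of them then
they form a set `E` as in the definition: `g ∈ g_i L_a` means `InL A a (g_i⁻¹ * g)`).  The groups `L_x` are conjugate in
`A.G` (`Trans`: if `g(a) = x` then `L_x = (g@a) L_a (g@a)⁻¹`), so for every `x` there are
`g_{x,0}, ..., g_{x,d} ∈ A.G` in different left cosets of `L_x`.  Write them as words of length `≤ n` in the generators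
and their inverses.  Let `N = d * (d + 1) * n + 1` and let `F`, `x`, `h` be as in AM1 (`ω` from STAT).  For all
generators `card {g ∈ F | q g ∉ F} ≤ card F / N`, the same for `q⁻¹` (`card {g ∈ F | q⁻¹ g ∉ F} = card (F \ q F) =
card (q F \ F)`), so `card {f ∈ F | g_{x,i} f ∉ F} ≤ n * card F / N < card F / (d * (d + 1))`.  Let
`F₁ = F ∩ L_x h`, `card F ≤ d * card F₁`.  The sets `g_{x,i} F₁ ∩ F`, `i = 0, ..., d`, are disjoint subsets of `F`
(they are in different cosets `g_{x,i} L_x h`) with more than `card F / d - card F / (d * (d + 1))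
= card F / (d + 1)` elements each, a contradiction. -/
def S_AM2 : Prop := S_STAT → S_AM1 → ∀ (m d : ℕ) (A : Auto (Fin m) (Fin d)), A.LN → Rec A → Trans A →
  Amen A → ∀ a, SecIdx A a d

/-! ### Codes -/

/-- PCHK2: the check of second certificates is primitive recursive.

Proof. As `Pool.Agent.Helper61.LN.pchk` (`Pool/Agent/Helper61/LN/PCHK.lean`), whose lemmas can be used or copied.  In
`StpSC` the word `h` is a piece of the word `v`, so all quantifiers are bounded. -/
def S_PCHK2 : Prop := PrimrecPred fun p : AC × CC2 => ChkC2 p.1 p.2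

/-- ENC12: chains of elementary steps and `EqvS`.

Proof. As `Pool.Agent.Helper56.LN.enc1` (`Pool/Agent/Helper56/LN/ENC1.lean`).  In the right to left direction a step with
`r = kap s h s'` is coded with the piece `h` of `v = p ++ (kap s h s' ++ t)` at the position `p.length + s.length`. -/
def S_ENC12 : Prop := ∀ (m : ℕ) (R L : List (List (S (Fin m)))) (u v : List (S (Fin m))),
  (∃ c, ChainSC m (R.map codeW) (L.map codeW) c (codeW u) (codeW v)) ↔ EqvS R L u v

/-- ENCC2: codes of second certificates.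

Proof. As `Pool.Agent.Helper42.LN.encc` (`Pool/Agent/Helper42/LN/ENCC.lean`). -/
def S_ENCC2 : Prop := S_ENC0 → S_ENC1 → S_ENC12 → ∀ (m d : ℕ) (A : Auto (Fin m) (Fin d)),
  (∃ c, ChkC2 (enc A) c) ↔ Cert2 A

end Pool.Agent.Helper85.LN2
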