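import Pool.Agent.Helper85.LN2.Goals
import Pool.Agent.Helper40.LN.CERTG
import Pool.Agent.Helper90.LN.SND

/-! The goals CGRP, GSND and CERTG2 of project LN2. -/

namespace Pool.Agent.Helper85.LN2

open Pool.Agent.Helper85.LN

section CGRP

variable {Q : Type} [DecidableEq Q] {E : List (S Q) → List (S Q) → Prop} (hE : Cong E)

include hE

theorem E_of_red {u v : List (S Q)} (h : FreeGroup.Red u v) : E u v := by
  induction h with
  | refl => exact hE.refl _
  | tail _ h ih =>
    refine hE.trans _ _ _ ih ?_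
    cases h with
    | @not L₁ L₂ x b =>
      have h1 := hE.left L₁ _ _ (hE.right L₂ _ _ (hE.triv x b))
      simpa using h1

theorem E_of_mk {u v : List (S Q)} (h : FreeGroup.mk u = FreeGroup.mk v) : E u v := by
  obtain ⟨w, h1, h2⟩ := FreeGroup.Red.exact.1 h
  exact hE.trans _ _ _ (E_of_red hE h1) (hE.symm _ _ (E_of_red hE h2))

/-- the kernel -/
def kerE : Subgroup (FreeGroup Q) where
  carrier := {g | E g.toWord []}
  mul_mem' := by
    intro g h hg hh
    have h1 : E (g * h).toWord (g.toWord ++ h.toWord) := by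
      apply E_of_mk hE
      rw [FreeGroup.mk_toWord, ← FreeGroup.mul_mk, FreeGroup.mk_toWord, FreeGroup.mk_toWord]
    have h2 := hE.append hg hh
    exact hE.trans _ _ _ h1 h2
  one_mem' := by
    change E (1 : FreeGroup Q).toWord []
    rw [FreeGroup.toWord_one]
    exact hE.refl _
  inv_mem' := by
    intro g hg
    have h1 : E (g⁻¹).toWord (iw g.toWord) := by
      rw [FreeGroup.toWord_inv]
      apply E_of_mk hE
      rfl
    have h2 : E (iw g.toWord) (iw []) := hE.iw hg
    exact hE.trans _ _ _ h1 h2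

theorem mem_kerE (w : List (S Q)) : FreeGroup.mk w ∈ kerE hE ↔ E w [] := by
  have h1 : E (FreeGroup.mk w).toWord w := by
    apply E_of_mk hE
    rw [FreeGroup.mk_toWord]
  constructor
  · intro h
    exact hE.trans _ _ _ (hE.symm _ _ h1) h
  · intro h
    exact hE.trans _ _ _ h1 h

theorem kerE_normal : (kerE hE).Normal := by
  constructor
  intro n hn g
  have h1 : n = FreeGroup.mk n.toWord := FreeGroup.mk_toWord.symm
  have h2 : g = FreeGroup.mk g.toWord := FreeGroup.mk_toWord.symm
  have h3 : g⁻¹ = FreeGroup.mk (iw g.toWord) := by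
    conv_lhs => rw [h2]
    rw [FreeGroup.inv_mk]
    rfl
  have h4 : g * n * g⁻¹ = FreeGroup.mk (g.toWord ++ n.toWord ++ iw g.toWord) := by
    rw [← FreeGroup.mul_mk, ← FreeGroup.mul_mk, ← h1, ← h2, ← h3]
  rw [h4, mem_kerE]
  have h5 : E (g.toWord ++ n.toWord ++ iw g.toWord) (g.toWord ++ [] ++ iw g.toWord) :=
    hE.right _ _ _ (hE.left _ _ _ hn)
  rw [List.append_nil] at h5
  exact hE.trans _ _ _ h5 (hE.mul_iw _)

omit hE

theorem cgrp : S_CGRP := by
  intro Q E hE
  classical
  have := kerE_normal hE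
  have hev : ∀ w : List (S Q),
      ev (fun q => ((FreeGroup.of q : FreeGroup Q) : FreeGroup Q ⧸ kerE hE)) w =
        ((FreeGroup.mk w : FreeGroup Q) : FreeGroup Q ⧸ kerE hE) := by
    intro w
    induction w with
    | nil => rfl
    | cons s w ih =>
      obtain ⟨q, b⟩ := s
      have e1 : FreeGroup.mk ((q, b) :: w) = FreeGroup.mk [(q, b)] * FreeGroup.mk w := by
        rw [FreeGroup.mul_mk]
        rfl
      rw [e1, QuotientGroup.mk_mul, ← ih]
      cases b
      · rfl
      · rfl
  refine ⟨FreeGroup Q ⧸ kerE hE, inferInstance, fun q => ((FreeGroup.of q : FreeGroup Q) : _),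
    fun u v => ?_, fun p => ?_⟩
  · rw [hev, hev, QuotientGroup.eq]
    have e1 : (FreeGroup.mk u)⁻¹ * FreeGroup.mk v = FreeGroup.mk (iw u ++ v) := by
      rw [FreeGroup.inv_mk, FreeGroup.mul_mk]
      rfl
    rw [e1, mem_kerE]
    constructor
    · intro h
      exact hE.trans _ _ _ (hE.left _ _ _ (hE.symm _ _ h)) (hE.iw_mul u)
    · intro h
      have h1 : E (u ++ (iw u ++ v)) (u ++ []) := hE.left _ _ _ h
      have h2 : E ((u ++ iw u) ++ v) ([] ++ v) := hE.right _ _ _ (hE.mul_iw u)
      rw [List.append_assoc] at h2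
      rw [List.append_nil] at h1
      exact hE.trans _ _ _ (hE.symm _ _ h1) h2
  · induction p using QuotientGroup.induction_on with
    | H g => exact ⟨g.toWord, by rw [hev, FreeGroup.mk_toWord]⟩

end CGRP

theorem gsnd : S_GSND := by
  intro m d A E k B t l hE hA hB hc
  -- one letter
  have hone : ∀ (s : S (Fin m)) (b : Fin d),
      B.ltw (A.toWA.sc s b) (t b) = t (A.toWA.lt s b) ∧
      E (B.scw (A.toWA.sc s b) (t b) ++ l b) (l (A.toWA.lt s b) ++ [s]) := by
    intro s b
    obtain ⟨q, e⟩ := s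
    cases e with
    | true =>
      have h := hc q b
      refine ⟨h.1, ?_⟩
      have e1 : B.scw (A.toWA.sc (q, true) b) (t b) = B.sc (A.tr q b, true) (t b) := by
        change B.sc (A.tr q b, true) (t b) ++ [] = _
        rw [List.append_nil]
      rw [e1]
      exact h.2
    | false =>
      set c : Fin d := (A.out q).symm b with hcdef
      set p : Fin m := A.tr q c with hp
      have hb : A.out q c = b := Equiv.apply_symm_apply _ _
      have h := hc q c
      rw [hb] at h
      have h1 : B.lt (p, false) (t b) = t c := by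
        rw [← h.1]
        exact B.lt_neg (p, true) (t c)
      have h2 : B.sc (p, false) (t b) = iw (B.sc (p, true) (t c)) := by
        rw [← h.1]
        exact B.sc_neg (p, true) (t c)
      have e1 : A.toWA.sc (q, false) b = [(p, false)] := rfl
      have e2 : A.toWA.lt (q, false) b = c := rfl
      rw [e1, e2]
      refine ⟨h1, ?_⟩
      have e3 : B.scw [(p, false)] (t b) = B.sc (p, false) (t b) := by
        change B.sc (p, false) (t b) ++ [] = _
        rw [List.append_nil]
      rw [e3, h2]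
      generalize B.sc (p, true) (t c) = T at h
      have h3 : E ((iw T ++ T) ++ l c) ([] ++ l c) := hE.right _ _ _ (hE.iw_mul T)
      have h4 : E (iw T ++ (T ++ l c)) (iw T ++ (l b ++ [(q, true)])) := hE.left _ _ _ h.2
      rw [List.append_assoc] at h3
      have h5 : E (l c) (iw T ++ (l b ++ [(q, true)])) := hE.trans _ _ _ (hE.symm _ _ h3) h4
      have h6 : E (l c ++ [(q, false)]) ((iw T ++ (l b ++ [(q, true)])) ++ [(q, false)]) :=
        hE.right _ _ _ h5
      have h7 : E ((iw T ++ l b) ++ [(q, true), (q, false)]) ((iw T ++ l b) ++ []) :=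
        hE.left _ _ _ (hE.triv q true)
      have e4 : (iw T ++ (l b ++ [(q, true)])) ++ [(q, false)] =
          (iw T ++ l b) ++ [(q, true), (q, false)] := by simp
      rw [e4] at h6
      rw [List.append_nil] at h7
      exact hE.symm _ _ (hE.trans _ _ _ h6 h7)
  -- all words
  have hall : ∀ (w : List (S (Fin m))) (a : Fin d),
      B.ltw (A.toWA.scw w a) (t a) = t (A.toWA.ltw w a) ∧
      E (B.scw (A.toWA.scw w a) (t a) ++ l a) (l (A.toWA.ltw w a) ++ w) := by
    intro w a
    induction w with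
    | nil =>
      refine ⟨rfl, ?_⟩
      change E ([] ++ l a) (l a ++ [])
      rw [List.append_nil, List.nil_append]
      exact hE.refl _
    | cons s w ih =>
      have h := hone s (A.toWA.ltw w a)
      have e1 : A.toWA.scw (s :: w) a = A.toWA.sc s (A.toWA.ltw w a) ++ A.toWA.scw w a := rfl
      have e2 : A.toWA.ltw (s :: w) a = A.toWA.lt s (A.toWA.ltw w a) := rfl
      rw [e1, e2, B.ltw_append, B.scw_append, ih.1]
      refine ⟨h.1, ?_⟩
      have h3 := hE.left (B.scw (A.toWA.sc s (A.toWA.ltw w a)) (t (A.toWA.ltw w a))) _ _ ih.2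
      have h4 := hE.right w _ _ h.2
      rw [← List.append_assoc, ← List.append_assoc] at h3
      have h5 := hE.trans _ _ _ h3 h4
      rw [List.append_assoc (l _) [s] w] at h5
      exact h5
  have htwo : ∀ (w u : List (S (Fin m))) (a : Fin d), A.toWA.ltw w a = a → A.toWA.ltw u a = a →
      E (A.toWA.scw w a) (A.toWA.scw u a) → E w u := by
    intro w u a hw hu h
    have h1 := (hall w a).2
    have h2 := (hall u a).2
    rw [hw] at h1
    rw [hu] at h2
    have h3 : E (B.scw (A.toWA.scw w a) (t a) ++ l a) (B.scw (A.toWA.scw u a) (t a) ++ l a) :=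
      hE.right _ _ _ (hB _ _ h (t a)).2
    exact hE.cancel (hE.trans _ _ _ (hE.trans _ _ _ (hE.symm _ _ h1) h3) h2)
  rw [A.LN_iff]
  intro w a hw hval
  let F : Type := {v : List (S (Fin m)) // v.length = w.length ∧ A.val v = 1}
  haveI : Finite F := by
    have h1 : {v : List (S (Fin m)) | v.length = w.length ∧ A.val v = 1}.Finite :=
      (List.finite_length_eq (S (Fin m)) w.length).subset fun v hv => hv.1
    exact h1.to_subtype
  let s : Setoid F := ⟨fun u v => E u.1 v.1, fun u => hE.refl _, fun h => hE.symm _ _ h,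
    fun h h' => hE.trans _ _ _ h h'⟩
  let f : F → F := fun v => ⟨A.toWA.scw v.1 a, by
    rw [A.scw_length]
    exact v.2.1, A.scw_of_val_eq_one v.1 v.2.2 a⟩
  have hf1 : ∀ u v, s.r u v → s.r (f u) (f v) := fun u v h => (hA _ _ h a).2
  have hf2 : ∀ u v, s.r (f u) (f v) → s.r u v := fun u v h =>
    htwo u.1 v.1 a (A.ltw_of_val_eq_one u.1 u.2.2 a) (A.ltw_of_val_eq_one v.1 v.2.2 a) h
  let x : F := ⟨A.toWA.scw w a, A.scw_length w a, hval⟩
  obtain ⟨v, hv⟩ := Helper90.LN.surj_classes90 s f hf1 hf2 x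
  have hv' : E (A.toWA.scw v.1 a) (A.toWA.scw w a) := hv
  have h1 : E v.1 w := htwo v.1 w a (A.ltw_of_val_eq_one v.1 v.2.2 a) hw hv'
  rw [← hE.val hA h1]
  exact v.2.2

open Helper40.LN in
theorem certg2 : S_CERTG2 := by
  intro H _ m d act sec γ tr hc hi hf hgen ht
  haveI : ∀ x, Finite (H ⧸ LL act sec hc x) := finite_quot act sec hc hf
  haveI : Finite (ZZ act sec hc) := inferInstance
  obtain ⟨k, ⟨e⟩⟩ := Finite.exists_equiv_fin (ZZ act sec hc)
  choose wd hwd using ev_surj γ hgen
  let B : WA (Fin m) (Fin k) :=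
    ⟨fun q => (e.symm.trans (MulAction.toPerm (γ q))).trans e,
      fun q z => wd (sig act sec hc (γ q) (e.symm z))⟩
  have hBt : ∀ q z, B.lt (q, true) (e z) = e (γ q • z) := by
    intro q z
    simp [B, WA.lt]
  have hBf : ∀ q z, B.lt (q, false) (e z) = e ((γ q)⁻¹ • z) := by
    intro q z
    simp [B, WA.lt]
  have hSt : ∀ q z, ev γ (B.sc (q, true) (e z)) = sig act sec hc (γ q) z := by
    intro q z
    simp [B, WA.sc, hwd]
  have hSf : ∀ q z, ev γ (B.sc (q, false) (e z)) = sig act sec hc (γ q)⁻¹ z := by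
    intro q z
    have h1 : B.sc (q, false) (e z) = iw (wd (sig act sec hc (γ q) ((γ q)⁻¹ • z))) := by
      simp [B, WA.sc]
    rw [h1, ev_iw, hwd, sig_inv act sec hc hi]
  have main : ∀ w z, B.ltw w (e z) = e (ev γ w • z) ∧
      ev γ (B.scw w (e z)) = sig act sec hc (ev γ w) z := by
    intro w
    induction w with
    | nil =>
      intro z
      refine ⟨by simp [WA.ltw, ev_nil], ?_⟩
      rw [ev_nil, sig_one act sec hc hi]
      rfl
    | cons s w ih =>
      intro z
      obtain ⟨q, b⟩ := s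
      rw [ev_cons, WA.ltw, WA.scw, ev_append, (ih z).1, (ih z).2, mul_smul,
        sig_mul act sec hc hi]
      cases b
      · exact ⟨hBf q _, by rw [hSf]; rfl⟩
      · exact ⟨hBt q _, by rw [hSt]; rfl⟩
  -- representatives of the orbits
  let r : Setoid (Fin d) :=
    { r := fun a b => ∃ g, act g a = b
      iseqv := ⟨fun a => ⟨1, by simp⟩,
        fun {a b} ⟨g, h⟩ => ⟨g⁻¹, by rw [map_inv, Equiv.Perm.inv_eq_iff_eq, h]⟩,
        fun {a b c} ⟨g, h⟩ ⟨g', h'⟩ => ⟨g' * g, by rw [map_mul, Equiv.Perm.mul_apply, h, h']⟩⟩ }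
  let rep : Fin d → Fin d := fun y => (Quotient.mk r y).out
  have hrep : ∀ y, ∃ g, act g (rep y) = y := fun y => Quotient.mk_out (s := r) y
  have hrep' : ∀ a b, (∃ g, act g a = b) → rep b = rep a := by
    intro a b h
    have : Quotient.mk r a = Quotient.mk r b := Quotient.sound h
    simp only [rep, this]
  choose c hcc using hrep
  refine ⟨k, B, fun y => e (pt act sec hc (c y) (rep y)),
    fun y => wd (rho act sec hc (rep y) (sec (c y) (rep y)) * (c y)⁻¹), ?_, ?_, ?_⟩
  · intro w hw z
    obtain ⟨z, rfl⟩ := e.surjective z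
    obtain ⟨h1, h2⟩ := main w z
    rw [hw] at h1 h2
    rw [one_smul] at h1
    exact ⟨h1, h2.trans (sig_one act sec hc hi z)⟩
  · intro w z hz
    obtain ⟨⟨x, C⟩, rfl⟩ := e.surjective z
    obtain ⟨h1, h2⟩ := main w ⟨x, C⟩
    rw [h1] at hz
    have h3 : ev γ w • (⟨x, C⟩ : ZZ act sec hc) = ⟨x, C⟩ := e.injective hz
    have h4 : ev γ w • C = C := eq_of_heq (Sigma.mk.inj h3).2
    refine ⟨x, C.out, ?_, ?_⟩
    · rw [h2]
      exact sig_act act sec hc _ x C
    · rw [h2, sig_sec act sec hc, h4]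
      group
  · intro q a
    have hb := hcc (act (γ q) a)
    have hr : rep (act (γ q) a) = rep a := hrep' a _ ⟨γ q, rfl⟩
    rw [hr] at hb
    obtain ⟨h1, h2⟩ := rel_pt act sec hc hi (g := γ q) rfl (hcc a) hb
    simp only [hBt, hSt, hwd, hr, ht]
    exact ⟨by rw [h1], h2⟩

end Pool.Agent.Helper85.LN2
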